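import Pool.Agent.R409.MC.Prod

/-!
# Zeros of the derivatives of the Hasse-Weil L-functions of modular curves over abelian number fields

Let `Λ` be a finite product of completed L-functions `Λ(f_j / K_j, s)`, where `f_j` is a newform of
weight 2 and level `N_j` and `K_j` an abelian number field of conductor prime to `N_j`.  For example, if
the `f_j` are the newforms of the levels `M ∣ N`, each of them taken `σ₀(N/M)` times, and all `K_j` are
equal to `K`, then by Eichler-Shimura `Λ(s) = Λ_A(1; X_0(N) ⊗ K, s)`; other choices give the quotients of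
the Jacobians of modular curves, the products of elliptic curves over `ℚ`, and their restrictions of
scalars.  Part (d) of the problem for these varieties and `i = 1` says that the zeros of `Λ` are on the
line `Re s = 1`, and it implies the same for all derivatives `Λ^(n)`.

We prove, without any hypothesis: the number of zeros of `Λ^(n)` with `0 < Im s ≤ T` that are off the line
or multiple is at most `C e^(-c n) T log T`, uniformly in `n ≥ 0` and `T ≥ 2`; the number of all zeros of
`Λ^(n)` up to height `T` is `≫ T log T` for `n ≤ A log T`; so the proportion of the zeros of `Λ^(n)` that are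
on the line and simple tends to `1` exponentially fast with `n`, at all heights `T ≥ T₀`, with the same `T₀`
for all `n`.  The function `Λ^(n)`, `n ≥ 1`, is not a product.

The proof combines, for the product over `j`, the theorem on the twists of one newform and the calculus of
products of `Pool.Agent.Y693.GL` (used there for one elliptic curve over an abelian field) with the
theorem on the flow of derivatives `Pool.Agent.TH839.UH`.
-/

set_option autoImplicit false

open Complex UpperHalfPlane MatrixGroups CongruenceSubgroup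
open scoped ComplexConjugate

namespace Pool.Agent.Results.MP_7193be_nt.DerivativesDensity

/-! ### Newforms and abelian number fields -/

/-- The `n`-th Fourier coefficient of `f`. -/
noncomputable def coef {N : ℕ} (f : CuspForm (Gamma0 N : Subgroup (GL (Fin 2) ℝ)) 2) (n : ℕ) : ℂ :=
  (qExpansion 1 f).coeff n

/-- `f ∈ S_2(Γ₀(N))` is a newform: its Fourier coefficients `c(n)` are real with `c(1) = 1`, they
satisfy the Hecke relations `c(mn) = c(m) c(n)` for coprime `m`, `n` and
`c(p^(j+2)) = c(p) c(p^(j+1)) - p c(p^j)` (without the last term if `p ∣ N`), `f` is an eigenfunction of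
the Fricke involution, `f(-1/(Nτ)) = -w N τ² f(τ)` with `w = ±1`, `|c(p)| ≤ 2 √p` for `p ∤ N` (which holds
by Eichler-Shimura and Weil) and `c(p) = 0, 1, -1` for `p ∣ N`. -/
structure IsNewform (N : ℕ) (f : CuspForm (Gamma0 N : Subgroup (GL (Fin 2) ℝ)) 2) : Prop where
  one : coef f 1 = 1
  real : ∀ n, (coef f n).im = 0
  mul : ∀ m n : ℕ, Nat.Coprime m n → coef f (m * n) = coef f m * coef f n
  pow : ∀ p j : ℕ, p.Prime → coef f (p ^ (j + 2)) = coef f p * coef f (p ^ (j + 1)) -
      (if p ∣ N then 0 else (p : ℂ) * coef f (p ^ j))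
  fricke : ∃ w : ℝ, (w = 1 ∨ w = -1) ∧ ∀ τ τ' : ℍ, (τ' : ℂ) * ((N : ℂ) * (τ : ℂ)) = -1 →
    f τ' = -(w : ℂ) * (N : ℂ) * (τ : ℂ) ^ 2 * f τ
  good : ∀ p : ℕ, p.Prime → ¬ p ∣ N → ‖coef f p‖ ≤ 2 * Real.sqrt p
  bad : ∀ p : ℕ, p.Prime → p ∣ N → coef f p = 0 ∨ coef f p = 1 ∨ coef f p = -1

/-- A newform `f` of level `N` and an abelian number field of conductor prime to `N`, given by its group
`G` of Dirichlet characters modulo `q`, with `q` prime to `N`. -/
structure Factor where
  /-- the level -/
  N : ℕ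
  level_ne : N ≠ 0
  /-- the newform -/
  f : CuspForm (Gamma0 N : Subgroup (GL (Fin 2) ℝ)) 2
  newform : IsNewform N f
  /-- the modulus -/
  q : ℕ
  modulus_ne : q ≠ 0
  /-- the group of characters of the field -/
  G : Subgroup (DirichletCharacter ℂ q)
  coprime : Nat.Coprime q N

/-- The completed L-function of the twist of `f` by `χ` modulo `q`, for `Re s > 3/2`:
`(√N q / 2π)^s Γ(s) ∑ c(n) χ(n) n^(-s)`. -/
noncomputable def twist {N : ℕ} (f : CuspForm (Gamma0 N : Subgroup (GL (Fin 2) ℝ)) 2) {q : ℕ}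
    (χ : DirichletCharacter ℂ q) (s : ℂ) : ℂ :=
  ((Real.sqrt N * q / (2 * Real.pi) : ℝ) : ℂ) ^ s * Complex.Gamma s *
    ∑' n : ℕ, coef f (n + 1) * χ ((n + 1 : ℕ) : ZMod q) * ((n + 1 : ℕ) : ℂ) ^ (-s)

/-- `Λ` is the product over `j` of the completed L-functions of `f_j` over `K_j`: `Λ` is entire and, for
large real part, it is the product over `j` and over `χ` in `G_j` of the completed L-functions of the
twists of `f_j` by the primitive character associated with `χ`. -/
def IsCompleted {ι : Type} [Fintype ι] (F : ι → Factor) (Λ : ℂ → ℂ) : Prop :=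
  Differentiable ℂ Λ ∧ ∃ σ : ℝ, ∀ s : ℂ, σ ≤ s.re →
    Λ s = ∏ j, ∏ᶠ χ : (F j).G,
      twist (F j).f (χ : DirichletCharacter ℂ (F j).q).primitiveCharacter s

/-! ### Counting zeros -/

/-- The zeros of `F` with `0 < Im s ≤ T`. -/
def zeros (F : ℂ → ℂ) (T : ℝ) : Set ℂ := {s | F s = 0 ∧ 0 < s.im ∧ s.im ≤ T}

/-- The zeros of `F` with `0 < Im s ≤ T` that are off the line `Re s = 1` or not simple. -/
def badZeros (F : ℂ → ℂ) (T : ℝ) : Set ℂ := {s | s ∈ zeros F T ∧ (s.re ≠ 1 ∨ deriv F s = 0)}

/-- The number of elements of `A`, counted with their multiplicity as zeros of `F`. -/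
noncomputable def count (F : ℂ → ℂ) (A : Set ℂ) : ENNReal := ∑' s : A, (analyticOrderNatAt F s : ENNReal)

/-- The statements on the zeros of the derivatives of `Λ`.

* `bad_le`: at most `C e^(-c n) T log T` zeros of `Λ^(n)` up to height `T` are off the line or multiple,
  for all `n ≥ 0` and `T ≥ 2`.
* `all_ge`: `Λ^(n)` has at least `b T log T` zeros up to height `T`, if `n ≤ A log T`.
* `ratio`: the bad zeros of `Λ^(n)` are at most the fraction `C e^(-c n)` of all zeros of `Λ^(n)` up to
  height `T`, for all `n ≥ 0` and all `T ≥ T0`. -/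
structure DerivativeZeros (Λ : ℂ → ℂ) : Prop where
  bad_le : ∃ c C : ℝ, 0 < c ∧ 0 < C ∧ ∀ (n : ℕ) (T : ℝ), 2 ≤ T →
    count (iteratedDeriv n Λ) (badZeros (iteratedDeriv n Λ) T) ≤
      ENNReal.ofReal (C * Real.exp (-(c * n)) * (T * Real.log T))
  all_ge : ∀ A : ℝ, 1 ≤ A → ∃ b T0 : ℝ, 0 < b ∧ 2 ≤ T0 ∧ ∀ (n : ℕ) (T : ℝ), T0 ≤ T →
    n ≤ A * Real.log T →
    ENNReal.ofReal (b * (T * Real.log T)) ≤ count (iteratedDeriv n Λ) (zeros (iteratedDeriv n Λ) T)
  ratio : ∃ c C T0 : ℝ, 0 < c ∧ 0 < C ∧ 2 ≤ T0 ∧ ∀ (n : ℕ) (T : ℝ), T0 ≤ T →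
    count (iteratedDeriv n Λ) (badZeros (iteratedDeriv n Λ) T) ≤ ENNReal.ofReal (C * Real.exp (-(c * n))) *
      count (iteratedDeriv n Λ) (zeros (iteratedDeriv n Λ) T)

/-- **Main theorem.**  Let `f_j` (`j` in a nonempty finite set) be newforms of weight 2 and levels `N_j`,
and `K_j` abelian number fields of conductors prime to `N_j`.  Then the completed L-function `Λ`, the
product of the `Λ(f_j / K_j, s)`, exists, is unique, has a functional equation, and `DerivativeZeros`
holds for it. -/
theorem result (ι : Type) [Fintype ι] [Nonempty ι] (F : ι → Factor) :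
    ∃ Λ : ℂ → ℂ, IsCompleted F Λ ∧ (∀ Λ' : ℂ → ℂ, IsCompleted F Λ' → Λ' = Λ) ∧
      (∃ W : ℂ, ‖W‖ = 1 ∧ ∀ s : ℂ, Λ (2 - s) = W * conj (Λ (conj s))) ∧
      DerivativeZeros Λ := by
  classical
  obtain ⟨C, hC, H⟩ := Pool.Agent.R409.MC.flow_fam
  have hform : ∀ j, ∃ w : ℝ, Pool.Agent.W169.HF.IsForm (F j).N (F j).f w := by
    intro j
    obtain ⟨w, hw, hfr⟩ := (F j).newform.fricke
    exact ⟨w,
      { one := (F j).newform.one
        real := (F j).newform.real
        mul := (F j).newform.mul
        pow := (F j).newform.pow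
        sign := hw
        fricke := hfr
        good := (F j).newform.good
        bad := fun p hp hpN => by
          have h1 : (1 : ℝ) ≤ Real.sqrt p := by
            rw [Real.one_le_sqrt]
            exact_mod_cast hp.one_le
          have h2 : ‖coef (F j).f p‖ ≤ 1 := by
            rcases (F j).newform.bad p hp hpN with h | h | h <;> simp [h]
          exact h2.trans h1 }⟩
  choose w hw using hform
  have hfin : ∀ j, Finite (F j).G := fun j => by
    have : NeZero (F j).q := ⟨(F j).modulus_ne⟩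
    infer_instance
  obtain ⟨E, hE⟩ : ∃ E : Pool.Agent.R409.MC.Fam ι, E = { N := fun j => (F j).N, hN := fun j => (F j).level_ne, f := fun j => (F j).f, w := w, form := hw, q := fun j => (F j).q, hq := fun j => (F j).modulus_ne, G := fun j => (F j).G, hG := fun j => Fintype.ofFinite _, cop := fun j => (F j).coprime } := ⟨_, rfl⟩
  have hPE : ∀ s : ℂ, Pool.Agent.R409.MC.PE E s = ∏ j, ∏ᶠ χ : (F j).G,
      twist (F j).f (χ : DirichletCharacter ℂ (F j).q).primitiveCharacter s := by
    intro s
    subst hE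
    unfold Pool.Agent.R409.MC.PE Pool.Agent.W355.UN.prodE
    refine Finset.prod_congr rfl fun j _ => ?_
    have : Fintype (F j).G := Fintype.ofFinite _
    rw [finprod_eq_prod_of_fintype]
    refine Finset.prod_congr (Finset.ext fun _ => by simp) fun χ _ => rfl
  obtain ⟨Λ, h1, ⟨σ, h2⟩, h3, h4⟩ := H ι E
  have h5 := Pool.Agent.R409.MC.der_fam E hC h1 ⟨σ, h2⟩ h4
  have h2' : ∃ σ : ℝ, ∀ s : ℂ, σ ≤ s.re → Λ s = ∏ j, ∏ᶠ χ : (F j).G,
      twist (F j).f (χ : DirichletCharacter ℂ (F j).q).primitiveCharacter s :=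
    ⟨σ, fun s hs => by rw [h2 s hs, hPE s]⟩
  exact ⟨Λ, ⟨h1, h2'⟩, fun Λ' h' => Pool.Agent.W355.UN.Pk.uniq h1 h'.1 h2' h'.2, h3,
    ⟨h5.bad_le, h5.all_ge, h5.ratio⟩⟩

end Pool.Agent.Results.MP_7193be_nt.DerivativesDensity
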