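import Pool.Agent.R791.Fe11

/-!
# The functional equation of Hasse-Weil L-functions and Gaussian sums of traces of Frobenius

Let `X` be smooth and projective over `ℤ[1/N]` (or over the `S`-integers of a number field), `i ≥ 0`, `c = (i+1)/2`,
and let `Λ_A(s) = A^(s/2) Γ_i(s) ∏_{p ∣ N} L_p(s) ∏_{p ∤ N} ∏_j (1 - α_{p,j} p^(-s))⁻¹` be the completed L-function of
`H^i(X)`, `A > 0`. (`Γ_i` is a product of factors `Γ_ℝ(s + μ)`, `c + μ > 0`, because
`Γ_ℂ(s) = Γ_ℝ(s) Γ_ℝ(s+1)`; `∏_{p ∣ N} L_p` is a finite product of factors `(1 - β q^(-s))⁻¹`.) With the local traces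
`t(q^k)` (sums of `k`-th powers of all inverse roots at the prime `q`, good or bad) put

`Θ(y) = (4πy)^(-1/2) ∑_{q, k ≥ 1} t(q^k) log(q) q^(-kc) exp (-(k log q)² / (4y))`,

`Z_A(y) = (4πy)^(-1/2) log A + π⁻¹ ∫ (Γ_i'/Γ_i)(c + it) e^(-t²y) dt - 2Θ(y)`.

Both the series and the integral converge absolutely for every `y > 0`. For every `X`, `i` and `A`, nothing being
assumed on the continuation of `Λ_A`:

(1) `Λ_A` has a meromorphic continuation to `ℂ` with `Λ_A(i+1-s) = ±Λ_A(s)` if and only if `Z_A(y)` has the asymptotic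
expansion of a heat trace: for every `B` there are finitely many complex numbers `ζ` and integers `m(ζ)`, EVEN for
`ζ ≠ 0`, with `Z_A(y) = ∑_ζ m(ζ) e^(ζy) + O(e^(-By))`, `y → ∞`.

(2) Moreover all zeros of this continuation lie on `Re s = (i+1)/2` if and only if `ζ` is real and `≤ 0` whenever
`m(ζ) > 0`. More generally, for arbitrary sets `P, M ⊂ ℂ`: the zeros `s` satisfy `(s-c)² ∈ P` and the poles
`(s-c)² ∈ M` if and only if `ζ ∈ P` whenever `m(ζ) > 0` and `ζ ∈ M` whenever `m(ζ) < 0`.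

(3) `Λ_A` is ENTIRE with `Λ_A(i+1-s) = ±Λ_A(s)` if and only if the same holds with integers `m(ζ) ≥ 0`; it is entire with
this functional equation and all its zeros lie on `Re s = (i+1)/2` if and only if moreover all `ζ` with `m(ζ) > 0` are
real and `≤ 0`.

(4) For such a continuation and every real `B`,
`Z_A(y) = ∑_ρ ord_ρ(Λ_A) e^((ρ-c)²y) + O(e^(-By))`, where `ρ` runs over all zeros and poles with `Re (ρ-c)² > -B`, which
are finite in number.

No growth condition is imposed on `Λ_A`.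

Proof. `Z_A(y)` is the integral of `π⁻¹ (Λ_A'/Λ_A)(c+z) e^(z²y)` over a vertical line `Re z = x`. With the functional
equation the integrand is odd, and the residue theorem on the rectangle with the vertices `±x ± iH` gives (4): the
horizontal sides and the tails are `O(e^((x²-H²)y))`. Conversely, the Laplace transform of `Z_A` at `z²` is
`(Λ_A'/Λ_A)(c+z)/z` by the Poisson formula for a half plane; by the expansion it is, as a function of `v = z²`,
meromorphic in every half plane `Re v > -n²` with simple poles and residues `m(ζ)`. Because the `m(ζ)` are even for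
`ζ ≠ 0`, the primitive gives a function on the strip `|Im z| < n` which is even or odd.
-/

set_option autoImplicit false

namespace Pool.Agent.Results.MP_7193be_nt.FunctionalEquation

open Filter Topology Complex NumberField IsDedekindDomain MeasureTheory
open Pool.Agent.R791.Frob Pool.Agent.R791.Fe

/-- `F` continues `Λ_A` from the half plane `Re s > b`. -/
def Continues {K : Type} [Field K] [NumberField K] {d : ℕ} {c : ℝ} {V : Frobenius K d c}
    (L : Completion V) (A : ℝ) (F : ℂ → ℂ) : Prop :=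
  ∀ s : ℂ, L.b < s.re → F s = L.Lam A s

/-- `F(2c - s) = ±F(s)` -/
def FunEq (c : ℝ) (F : ℂ → ℂ) : Prop :=
  ∃ ε : ℂ, (ε = 1 ∨ ε = -1) ∧ ∀ s, F (2 * c - s) = ε * F s

/-- **The functional equation of the L-functions of `H^i(X)` and Gaussian sums of traces of Frobenius.** -/
theorem result {K : Type} [Field K] [NumberField K] {d : ℕ} {c : ℝ} {V : Frobenius K d c}
    (L : Completion V) {A : ℝ} (hA : 0 < A) :
    (∀ y : ℝ, 0 < y → Summable (V.heatTerm c y) ∧
      (∀ j, Summable fun k : ℕ => L.root j ^ (k + 1) *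
        ((Real.log (L.q j) * (L.q j ^ (-c)) ^ (k + 1) *
          Real.exp (-(((k : ℝ) + 1) * Real.log (L.q j)) ^ 2 / (4 * y)) : ℝ) : ℂ)) ∧
      Integrable fun t : ℝ => logDeriv L.gam (c + t * I) * ((Real.exp (-(t ^ 2 * y)) : ℝ) : ℂ)) ∧
    ((∃ F : ℂ → ℂ, (∀ s, MeromorphicAt F s) ∧ Continues L A F ∧ FunEq c F) ↔
      Exp (fun ζ m => ζ ≠ 0 → Even m) (L.Z A)) ∧
    ((∃ F : ℂ → ℂ, (∀ s, MeromorphicAt F s) ∧ Continues L A F ∧ FunEq c F ∧
        ∀ s : ℂ, 0 < meromorphicOrderAt F s → s.re = c) ↔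
      Exp (fun ζ m => (ζ ≠ 0 → Even m) ∧ (0 < m → ζ.im = 0 ∧ ζ.re ≤ 0)) (L.Z A)) ∧
    (∀ P M : Set ℂ, (∃ F : ℂ → ℂ, (∀ s, MeromorphicAt F s) ∧ Continues L A F ∧ FunEq c F ∧
        ∀ s : ℂ, (0 < meromorphicOrderAt F s → (s - c) ^ 2 ∈ P) ∧
          (meromorphicOrderAt F s < 0 → (s - c) ^ 2 ∈ M)) ↔
      Exp (fun ζ m => (ζ ≠ 0 → Even m) ∧ (0 < m → ζ ∈ P) ∧ (m < 0 → ζ ∈ M)) (L.Z A)) ∧
    ((∃ F : ℂ → ℂ, Differentiable ℂ F ∧ Continues L A F ∧ FunEq c F) ↔
      Exp (fun ζ m => (ζ ≠ 0 → Even m) ∧ 0 ≤ m) (L.Z A)) ∧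
    ((∃ F : ℂ → ℂ, Differentiable ℂ F ∧ Continues L A F ∧ FunEq c F ∧
        ∀ s : ℂ, F s = 0 → s.re = c) ↔
      Exp (fun ζ m => (ζ ≠ 0 → Even m) ∧ 0 ≤ m ∧ (0 < m → ζ.im = 0 ∧ ζ.re ≤ 0)) (L.Z A)) ∧
    ∀ F : ℂ → ℂ, (∀ s, MeromorphicAt F s) → Continues L A F → FunEq c F → ∀ B : ℝ,
      ∃ (hfin : {s : ℂ | -B < ((s - c) ^ 2).re ∧ meromorphicOrderAt F s ≠ 0}.Finite) (C : ℝ),
        ∀ y : ℝ, 1 ≤ y → ‖L.Z A y - ∑ s ∈ hfin.toFinset,
          ((meromorphicOrderAt F s).untop₀ : ℂ) * Complex.exp ((s - c) ^ 2 * y)‖ ≤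
            C * Real.exp (-(B * y)) := by
  have hre : ∀ s : ℂ, ((((s - c) ^ 2).im = 0 ∧ ((s - c) ^ 2).re ≤ 0)) ↔ s.re = c := fun s => by
    rw [sq_neg_iff, Complex.sub_re, Complex.ofReal_re, sub_eq_zero]
  refine ⟨fun y hy => conv L hy, ?_, ?_, fun P M => main_iff L hA P M, ?_, ?_,
    fun F h1 h2 h3 B => main_exact L hA h1 h2 h3 B⟩
  · have h := main_iff L hA Set.univ Set.univ
    simp only [Set.mem_univ, implies_true, and_true] at h
    exact h
  · have h := main_iff L hA {ζ | ζ.im = 0 ∧ ζ.re ≤ 0} Set.univ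
    simp only [Set.mem_univ, implies_true, and_true, Set.mem_ofPred_eq, hre] at h
    exact h
  · have h := main_iff_entire L hA Set.univ
    simp only [Set.mem_univ, implies_true, and_true] at h
    exact h
  · have h := main_iff_entire L hA {ζ | ζ.im = 0 ∧ ζ.re ≤ 0}
    simp only [Set.mem_ofPred_eq, hre] at h
    exact h

end Pool.Agent.Results.MP_7193be_nt.FunctionalEquation
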