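import Pool.Agent.R838.CR.AllR
import Pool.Agent.R838.NB.Form

/-!
# The heat flow of Hasse-Weil L-functions

Let `X` be smooth and projective over `ℤ[1/N]`, `i ≥ 0`, and suppose that `H^i(X)` is (up to semisimplification) a sum of
parts `V(f) (-r)`, where `f` is a newform of any weight `k ≥ 1`, any level and any nebentypus, and `k + 2r = i + 1`.
Examples: `H^1` of the modular curves `X_0(M)`, `X_1(M)`, of all elliptic curves over `ℚ`, of all products of abelian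
varieties over `ℚ` of `GL_2`-type and of their Weil restrictions from abelian number fields; `H^3` of rigid Calabi-Yau
threefolds over `ℚ`; any Tate twists and any multiplicities are allowed.

The generalized Riemann hypothesis (d) says that all zeros of `Λ = Λ_A(i; X, s)` are on the line `Re s = (i + 1)/2`; it is
equivalent to the statement that all zeros of the heat flow `Λ_t = exp (t D²) Λ`, `D = d/ds`, are on this line for all
`t > 0` (they are for `t ≥ 1/8`, by de Bruijn). The mean distance of the zeros at height `y` is `π / ((n + 1) log y)`,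
where `n + 1` is the number of parts. We prove, without any hypothesis: for all `ε > 0` and `A` there are `c, C > 0` such
that for `0 < t ≤ 1/8` and `T ≥ 2` at most the proportion `C exp (-c t log² T)` of the zeros of `Λ_t` with imaginary part
in `(T, 2T]` are off the line `Re s = (i + 1)/2`, or multiple, or, if `t log T ≤ A`, not followed by a simple zero on the
line at the distance `(1 + O(ε)) π / ((n + 1) log y)`, with no zeros in between. So almost all zeros are simple, on the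
line and form a lattice as soon as `t` is large compared with `1 / log² T`, even if `L(i; X, s)` has repeated factors.

The proof is multiplicative: mollified second moments near the line for the factors (shifted convolution sums by
Jutila's circle method, project GD2 of helper671 and others, `Pool.Agent.Y671`), and a local theorem on the heat flow at
heights where all factors look like their main terms (`Pool.Agent.R838.LD`, arbitrary degree; `Pool.Agent.R838.CR`: the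
gaps between the zeros; on the line `Λ_t` is the real part of an integral over a half-line, which by the saddle point
method rotates with constant speed). `Pool.Agent.R838.NB`: forms with nebentypus (a pointwise bound for their eigenvalues
by twisted Kloosterman sums; variants of `Pool.Agent.Y771.NF`).
-/

set_option autoImplicit false

open UpperHalfPlane MatrixGroups CongruenceSubgroup

namespace Pool.Agent.Results.MP_7193be_nt.HeatFlowHasseWeil

/-! ### The constituents of the cohomology -/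

/-- The `n`-th Fourier coefficient `a(n)` of `f(τ) = ∑ a(n) e^(2πinτ)`. -/
noncomputable def a {M : ℕ} {k : ℤ} (f : CuspForm (Gamma1 M : Subgroup (GL (Fin 2) ℝ)) k) (n : ℕ) :
    ℂ := (qExpansion 1 f).coeff n

/-- `f` is a newform of weight `k`, level `M`, nebentypus `ψ`; the properties that are used:
`f(γτ) = ψ(d) (cτ+d)^k f(τ)` for `γ = (a b; c d)` in `Γ₀(M)`, `a(1) = 1`, the Hecke relations
`a(mn) = a(m) a(n)` for coprime `m`, `n` and `a(p^(j+2)) = a(p) a(p^(j+1)) - ψ(p) p^(k-1) a(p^j)`,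
`conj a(n) = conj ψ(n) a(n)` for `n` prime to `M`, and the Fricke involution maps `f` to a multiple
of the form with the conjugate coefficients,
`f(-1/(Mτ)) = η (√M τ/i)^k conj (f(-conj τ))` with `|η| = 1`. -/
structure IsNewform (M : ℕ) (k : ℤ) (ψ : DirichletCharacter ℂ M)
    (f : CuspForm (Gamma1 M : Subgroup (GL (Fin 2) ℝ)) k) : Prop where
  neb : ∀ γ : SL(2, ℤ), γ ∈ Gamma0 M → ∀ τ : ℍ,
    f (γ • τ) = ψ ((γ 1 1 : ℤ) : ZMod M) * denom γ τ ^ k * f τ
  one : a f 1 = 1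
  mul : ∀ m n : ℕ, Nat.Coprime m n → a f (m * n) = a f m * a f n
  pow : ∀ p j : ℕ, p.Prime → a f (p ^ (j + 2)) = a f p * a f (p ^ (j + 1)) -
    ψ (p : ZMod M) * (p : ℂ) ^ (k - 1) * a f (p ^ j)
  conj : ∀ n : ℕ, Nat.Coprime n M → (starRingEnd ℂ) (a f n) =
    (starRingEnd ℂ) (ψ (n : ZMod M)) * a f n
  fricke : ∃ η : ℂ, ‖η‖ = 1 ∧ ∀ τ τ' τc : ℍ, (τ' : ℂ) * ((M : ℂ) * (τ : ℂ)) = -1 →
    (τc : ℂ) = -(starRingEnd ℂ) (τ : ℂ) →
    f τ' = η * (((Real.sqrt M : ℝ) : ℂ) * (τ : ℂ) / Complex.I) ^ k * (starRingEnd ℂ) (f τc)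

/-- A part `V(f) (-r)` of a cohomology group of degree `i`: a newform `f` of level `M`, weight `k` and nebentypus `ψ`,
and a Tate twist `(-r)` with `k + 2r = i + 1`. -/
structure Part (i : ℕ) where
  M : ℕ
  k : ℕ
  r : ℕ
  ψ : DirichletCharacter ℂ M
  f : CuspForm (Gamma1 M : Subgroup (GL (Fin 2) ℝ)) (k : ℤ)
  M_pos : 1 ≤ M
  k_pos : 1 ≤ k
  newform : IsNewform M k ψ f
  weight : k + 2 * r = i + 1

/-- The polynomial `P_i(X(p), T)` at `T = p^(-s)` for the sum `V` of the parts `π_0, …, π_n`: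
`∏_j (1 - a_j(p) p^(r_j - s) + ψ_j(p) p^(i - 2s))`, where `ψ_j(p) = 0` for `p ∣ M_j` (for the bad `p`
this is the polynomial of the Frobenius on the inertia invariants, so that `P(p, s)⁻¹ = L_p(i; X, s)`). -/
noncomputable def P {i n : ℕ} (π : Fin (n + 1) → Part i) (p : ℕ) (s : ℂ) : ℂ :=
  ∏ j, (1 - a (π j).f p * (p : ℂ) ^ (((π j).r : ℂ) - s) +
    (π j).ψ (p : ZMod (π j).M) * (p : ℂ) ^ ((i : ℂ) - 2 * s))

/-- The factor `∏_j (√M_j / 2π)^s Γ(s - r_j)`, up to a constant `A^(s/2) ∏_j Γ_ℂ(s - r_j)` with the conductor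
`A = ∏_j M_j`. -/
noncomputable def gam {i n : ℕ} (π : Fin (n + 1) → Part i) (s : ℂ) : ℂ :=
  ∏ j, (((Real.sqrt (π j).M / (2 * Real.pi) : ℝ) : ℂ) ^ s * Complex.Gamma (s - (π j).r))

/-- `Λ` is (up to a constant) the completed Hasse-Weil L-function `Λ_A(i; X, s)` with
`H^i(X) = π_0 ⊕ … ⊕ π_n`: it is entire and for `Re s > i/2 + 1` it is the product of `gam(s)` and the Euler product
over all primes of `P(p, s)⁻¹`. -/
def IsCompleted {i n : ℕ} (π : Fin (n + 1) → Part i) (Λ : ℂ → ℂ) : Prop :=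
  Differentiable ℂ Λ ∧ ∀ s : ℂ, (i : ℝ) / 2 + 1 < s.re → ∃ L : ℂ,
    HasProd (fun p : Nat.Primes => (P π p s)⁻¹) L ∧ Λ s = gam π s * L

/-! ### The heat flow and its zeros -/

/-- The heat flow `Λ_t = exp (t D²) Λ` (`D = d/ds`, `t ≥ 0`) as a Gaussian average:
`Λ_t(s) = π^(-1/2) ∫ exp (-v²) Λ(s + 2 √t v) dv`. -/
noncomputable def heat (t : ℝ) (Λ : ℂ → ℂ) (s : ℂ) : ℂ :=
  ((1 / Real.sqrt Real.pi : ℝ) : ℂ) *
    ∫ v : ℝ, ((Real.exp (-v ^ 2) : ℝ) : ℂ) * Λ (s + ((2 * Real.sqrt t * v : ℝ) : ℂ))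

/-- The zeros of `Λ_t` with imaginary part in `(T, 2T]`. -/
def Zer (Λ : ℂ → ℂ) (t T : ℝ) : Set ℂ := {s | heat t Λ s = 0 ∧ T < s.im ∧ s.im ≤ 2 * T}

/-- The next zero of `Y` above `s` is simple and lies vertically above `s`, at a distance `g` with
`|g κ log (Im s) - π| ≤ ε`; and `s` and `s + i g` are the only zeros with imaginary part in `[Im s, Im s + g]`. -/
def Followed (Y : ℂ → ℂ) (κ ε : ℝ) (s : ℂ) : Prop :=
  ∃ g : ℝ, 0 < g ∧ |g * (κ * Real.log s.im) - Real.pi| ≤ ε ∧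
    Y (s + g * Complex.I) = 0 ∧ deriv Y (s + g * Complex.I) ≠ 0 ∧
    ∀ z : ℂ, Y z = 0 → s.im ≤ z.im → z.im ≤ s.im + g → z = s ∨ z = s + g * Complex.I

/-- The exceptional ones: off the line `Re s = (i + 1)/2`, or multiple, or, if `t log T ≤ A`, not followed by a zero at
the distance `(π + O(ε)) / (κ log (Im s))`. -/
def Exc (i : ℕ) (Λ : ℂ → ℂ) (κ ε A t T : ℝ) : Set ℂ :=
  {s | s ∈ Zer Λ t T ∧ (s.re ≠ ((i : ℝ) + 1) / 2 ∨ deriv (heat t Λ) s = 0 ∨
    (t * Real.log T ≤ A ∧ ¬ Followed (heat t Λ) κ ε s))}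

/-- The number of points of `A`, each counted with its multiplicity as a zero of `Λ_t`. -/
noncomputable def num (Λ : ℂ → ℂ) (t : ℝ) (A : Set ℂ) : ℕ :=
  ∑ᶠ s ∈ A, analyticOrderNatAt (heat t Λ) s

theorem key {i n : ℕ} (π : Fin (n + 1) → Part i) :
    ∃ (Λ : ℂ → ℂ) (v : ℂ), v ≠ 0 ∧ IsCompleted π Λ ∧ (∀ Λ' : ℂ → ℂ, IsCompleted π Λ' → Λ' = Λ) ∧
      (∃ W : ℂ, ‖W‖ = 1 ∧ ∀ s : ℂ, Λ (i + 1 - s) = W * (starRingEnd ℂ) (Λ ((starRingEnd ℂ) s))) ∧
      Pool.Agent.R838.TW.PL ((n + 1 : ℕ) : ℝ) (fun z => v * Λ (((((i : ℝ) + 1) / 2 : ℝ) : ℂ) + z)) := by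
  have hone : ∀ j : Fin (n + 1), ∃ (X : ℂ → ℂ) (v : ℂ), Pool.Agent.R838.TW.PL 1 X ∧ v ≠ 0 ∧
      ∀ s : ℂ, (i : ℝ) / 2 + 1 < s.re → ∃ L : ℂ,
      HasProd (fun p : Nat.Primes =>
        (1 - a (π j).f p * ((p : ℕ) : ℂ) ^ (((π j).r : ℂ) - s) +
          (π j).ψ ((p : ℕ) : ZMod (π j).M) * ((p : ℕ) : ℂ) ^ ((i : ℂ) - 2 * s))⁻¹) L ∧
      X (s - ((((i : ℝ) + 1) / 2 : ℝ) : ℂ)) =
        v * (((Real.sqrt (π j).M / (2 * Real.pi) : ℝ) : ℂ) ^ s * Complex.Gamma (s - (π j).r) * L) := by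
    intro j
    haveI : NeZero (π j).M := ⟨Nat.one_le_iff_ne_zero.1 (π j).M_pos⟩
    have hf := (π j).newform
    obtain ⟨η, hη, hfr⟩ := hf.fricke
    have hf' : W388.IsNewfC (π j).M (π j).k (π j).ψ (π j).f η :=
      ⟨hf.neb, hf.one, hf.mul, hf.pow, hf.conj, hη, hfr⟩
    exact Pool.Agent.R838.NB.pl_new (π j).k_pos hf' (π j).weight
  obtain ⟨X, v, h1, h2, h3⟩ := Pool.Agent.R838.TW.pl_parts (σ := (i : ℝ) / 2 + 1)
    (a := ((((i : ℝ) + 1) / 2 : ℝ) : ℂ))
    (fun j p s => 1 - a (π j).f p * ((p : ℕ) : ℂ) ^ (((π j).r : ℂ) - s) +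
      (π j).ψ ((p : ℕ) : ZMod (π j).M) * ((p : ℕ) : ℂ) ^ ((i : ℂ) - 2 * s))
    (fun j s => ((Real.sqrt (π j).M / (2 * Real.pi) : ℝ) : ℂ) ^ s * Complex.Gamma (s - (π j).r)) hone
  rw [Fintype.card_fin] at h1
  obtain ⟨Λ, k1, k2, k3, k4, k5⟩ := Pool.Agent.R838.TW.lam_parts h1 h2 (P := fun p s => P π p s) (gm := gam π)
    (a := ((i : ℝ) + 1) / 2) h3
  refine ⟨Λ, v, h2, ⟨k1, k2⟩, fun Λ' h' => k3 Λ' h'.1 h'.2, ?_, k5⟩
  obtain ⟨W, hW, k6⟩ := k4
  refine ⟨W, hW, fun s => ?_⟩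
  have k7 := k6 s
  rw [show (2 : ℂ) * ((((i : ℝ) + 1) / 2 : ℝ) : ℂ) = i + 1 by push_cast; ring] at k7
  exact k7

/-- **Main theorem.** Let `Λ` be the completed Hasse-Weil L-function with the parts `π_0, …, π_n`. It exists, is
unique, satisfies the functional equation, and for all `ε > 0` and `A` there are `c, C > 0` such that for `0 < t ≤ 1/8`
and `T ≥ 2` at most the proportion `C exp (-c t log² T)` of the zeros of its heat flow `Λ_t` with imaginary part in
`(T, 2T]`, counted with multiplicity, are off the line `Re s = (i + 1)/2`, or multiple, or (if `t log T ≤ A`) not followed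
by a simple zero on the line at the distance `(π + O(ε)) / ((n + 1) log (Im s))` with no zeros in between; and the number
of these exceptional zeros is at most `C exp (-c t log² T) T log T`. -/
theorem result {i n : ℕ} (π : Fin (n + 1) → Part i) :
    ∃ Λ : ℂ → ℂ, IsCompleted π Λ ∧ (∀ Λ' : ℂ → ℂ, IsCompleted π Λ' → Λ' = Λ) ∧
      (∃ W : ℂ, ‖W‖ = 1 ∧ ∀ s : ℂ, Λ (i + 1 - s) = W * (starRingEnd ℂ) (Λ ((starRingEnd ℂ) s))) ∧
      (∀ t T : ℝ, 0 ≤ t → (Zer Λ t T).Finite) ∧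
      ∀ ε A : ℝ, 0 < ε → ∃ c C : ℝ, 0 < c ∧ 0 < C ∧ ∀ t T : ℝ, 0 < t → t ≤ 1 / 8 → 2 ≤ T →
        (num Λ t (Exc i Λ ((n + 1 : ℕ) : ℝ) ε A t T) : ℝ) ≤
          C * Real.exp (-(c * t * Real.log T ^ 2)) * num Λ t (Zer Λ t T) ∧
        (num Λ t (Exc i Λ ((n + 1 : ℕ) : ℝ) ε A t T) : ℝ) ≤
          C * Real.exp (-(c * t * Real.log T ^ 2)) * T * Real.log T := by
  obtain ⟨Λ, v, hv, h1, h2, h3, h4⟩ := key π
  have hκ : (1 : ℝ) / 2 ≤ ((n + 1 : ℕ) : ℝ) := by
    push_cast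
    have : (0 : ℝ) ≤ n := Nat.cast_nonneg n
    linarith
  obtain ⟨h5, h6⟩ := Pool.Agent.R838.CR.PL_spacing hκ h4 hv
  exact ⟨Λ, h1, h2, h3, h5, h6⟩

end Pool.Agent.Results.MP_7193be_nt.HeatFlowHasseWeil
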