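import Pool.Agent.R838.TW.Cnt
import Pool.Agent.R838.NB.Form

/-!
# Zeros off the line of Hasse-Weil L-functions, and growth away from the line

Let `X` be smooth and projective over `ℤ[1/N]`, `i ≥ 0`, and suppose that `H^i(X)` is (up to semisimplification) a sum of
parts `V(f) (-r)`, where `f` is a newform of any weight `k ≥ 1`, any level and any nebentypus, and `k + 2r = i + 1`.
Examples: `H^1` of the modular curves `X_0(M)`, `X_1(M)`, of all elliptic curves over `ℚ`, of all products of abelian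
varieties over `ℚ` of `GL_2`-type and of their Weil restrictions from abelian number fields; `H^3` of rigid Calabi-Yau
threefolds over `ℚ`; any Tate twists and any multiplicities are allowed.

We prove for `Λ = Λ_A(i; X, s)`, without any hypothesis:

* for EVERY `c < 1` the number of zeros of `Λ` with imaginary part in `(0, T]` and distance at least `δ` from the line
  `Re s = (i + 1)/2`, counted with multiplicity, is at most `C T^(1 - c δ) log T`, for all `δ ≥ 0` and all `T ≥ 2`;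
* (d) holds if and only if `σ ↦ |Λ(σ + i t)|` is strictly increasing on `σ ≥ (i + 1)/2` for all `t`, and the set of the
  heights `t` in `[0, T]` at which it is not strictly increasing on `σ ≥ (i + 1)/2 + r / log T` has measure at most
  `C e^(-c r) T`, again for every `c < 1`.

(For the derivatives of `Λ` see the file `DerivativesDensity` of helper409.) The density theorem rests on mollified
second moments near the line for the factors (shifted convolution sums by Jutila's circle method, project GD2 of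
helper671 and others, `Pool.Agent.Y671`) and Littlewood's lemma (`Pool.Agent.Y24.GL`, helper24; real coefficients);
the growth follows from it, since a zero `(i + 1)/2 + β + i γ` disturbs it only for `|t - γ| < |β|` (Hadamard product).
New here: `Pool.Agent.R838.NB`, newforms of arbitrary weight and nebentypus; `Pool.Agent.R838.TW`, functions with
complex coefficients.
-/

set_option autoImplicit false

open UpperHalfPlane MatrixGroups CongruenceSubgroup

namespace Pool.Agent.Results.MP_7193be_nt.ZeroDensity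

/-! ### The constituents of the cohomology -/

/-- The `n`-th Fourier coefficient `a(n)` of `f(τ) = ∑ a(n) e^(2πinτ)`. -/
noncomputable def a {M : ℕ} {k : ℤ} (f : CuspForm (Gamma1 M : Subgroup (GL (Fin 2) ℝ)) k) (n : ℕ) :
    ℂ := (qExpansion 1 f).coeff n

/-- `f` is a newform of weight `k`, level `M`, nebentypus `ψ`; the properties that are used:
`f(γτ) = ψ(d) (cτ+d)^k f(τ)` for `γ = (a b; c d)` in `Γ₀(M)`, `a(1) = 1`, the Hecke relations
`a(mn) = a(m) a(n)` for coprime `m`, `n` and `a(p^(j+2)) = a(p) a(p^(j+1)) - ψ(p) p^(k-1) a(p^j)`,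
`conj a(n) = conj ψ(n) a(n)` for `n` prime to `M`, and the Fricke involution maps `f` to a multiple
of the form with the conjugate coefficients,
`f(-1/(Mτ)) = η (√M τ/i)^k conj (f(-conj τ))` with `|η| = 1`. -/
structure IsNewform (M : ℕ) (k : ℤ) (ψ : DirichletCharacter ℂ M)
    (f : CuspForm (Gamma1 M : Subgroup (GL (Fin 2) ℝ)) k) : Prop where
  neb : ∀ γ : SL(2, ℤ), γ ∈ Gamma0 M → ∀ τ : ℍ,
    f (γ • τ) = ψ ((γ 1 1 : ℤ) : ZMod M) * denom γ τ ^ k * f τ
  one : a f 1 = 1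
  mul : ∀ m n : ℕ, Nat.Coprime m n → a f (m * n) = a f m * a f n
  pow : ∀ p j : ℕ, p.Prime → a f (p ^ (j + 2)) = a f p * a f (p ^ (j + 1)) -
    ψ (p : ZMod M) * (p : ℂ) ^ (k - 1) * a f (p ^ j)
  conj : ∀ n : ℕ, Nat.Coprime n M → (starRingEnd ℂ) (a f n) =
    (starRingEnd ℂ) (ψ (n : ZMod M)) * a f n
  fricke : ∃ η : ℂ, ‖η‖ = 1 ∧ ∀ τ τ' τc : ℍ, (τ' : ℂ) * ((M : ℂ) * (τ : ℂ)) = -1 →
    (τc : ℂ) = -(starRingEnd ℂ) (τ : ℂ) →
    f τ' = η * (((Real.sqrt M : ℝ) : ℂ) * (τ : ℂ) / Complex.I) ^ k * (starRingEnd ℂ) (f τc)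

/-- A part `V(f) (-r)` of a cohomology group of degree `i`: a newform `f` of level `M`, weight `k` and nebentypus `ψ`,
and a Tate twist `(-r)` with `k + 2r = i + 1`. -/
structure Part (i : ℕ) where
  M : ℕ
  k : ℕ
  r : ℕ
  ψ : DirichletCharacter ℂ M
  f : CuspForm (Gamma1 M : Subgroup (GL (Fin 2) ℝ)) (k : ℤ)
  M_pos : 1 ≤ M
  k_pos : 1 ≤ k
  newform : IsNewform M k ψ f
  weight : k + 2 * r = i + 1

/-- The polynomial `P_i(X(p), T)` at `T = p^(-s)` for the sum `V` of the parts `π_0, …, π_n`: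
`∏_j (1 - a_j(p) p^(r_j - s) + ψ_j(p) p^(i - 2s))`, where `ψ_j(p) = 0` for `p ∣ M_j` (for the bad `p`
this is the polynomial of the Frobenius on the inertia invariants, so that `P(p, s)⁻¹ = L_p(i; X, s)`). -/
noncomputable def P {i n : ℕ} (π : Fin (n + 1) → Part i) (p : ℕ) (s : ℂ) : ℂ :=
  ∏ j, (1 - a (π j).f p * (p : ℂ) ^ (((π j).r : ℂ) - s) +
    (π j).ψ (p : ZMod (π j).M) * (p : ℂ) ^ ((i : ℂ) - 2 * s))

/-- The factor `∏_j (√M_j / 2π)^s Γ(s - r_j)`, up to a constant `A^(s/2) ∏_j Γ_ℂ(s - r_j)` with the conductor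
`A = ∏_j M_j`. -/
noncomputable def gam {i n : ℕ} (π : Fin (n + 1) → Part i) (s : ℂ) : ℂ :=
  ∏ j, (((Real.sqrt (π j).M / (2 * Real.pi) : ℝ) : ℂ) ^ s * Complex.Gamma (s - (π j).r))

/-- `Λ` is (up to a constant) the completed Hasse-Weil L-function `Λ_A(i; X, s)` with
`H^i(X) = π_0 ⊕ … ⊕ π_n`: it is entire and for `Re s > i/2 + 1` it is the product of `gam(s)` and the Euler product
over all primes of `P(p, s)⁻¹`. -/
def IsCompleted {i n : ℕ} (π : Fin (n + 1) → Part i) (Λ : ℂ → ℂ) : Prop :=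
  Differentiable ℂ Λ ∧ ∀ s : ℂ, (i : ℝ) / 2 + 1 < s.re → ∃ L : ℂ,
    HasProd (fun p : Nat.Primes => (P π p s)⁻¹) L ∧ Λ s = gam π s * L

/-! ### Zeros and growth -/

/-- The number of points of `A`, each counted with its multiplicity as a zero of `F`. -/
noncomputable def num (F : ℂ → ℂ) (A : Set ℂ) : ℕ := ∑ᶠ s ∈ A, analyticOrderNatAt F s

/-- The zeros of `F` at distance at least `δ` from the line `Re s = (i + 1)/2`, with imaginary part in `(0, T]`. -/
def Off (i : ℕ) (F : ℂ → ℂ) (δ T : ℝ) : Set ℂ :=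
  {s | F s = 0 ∧ δ ≤ |s.re - ((i : ℝ) + 1) / 2| ∧ 0 < s.im ∧ s.im ≤ T}

/-- `σ ↦ |F(σ + i t)|` is strictly increasing on the half-line `σ ≥ (i + 1)/2 + h`. -/
def Grows (i : ℕ) (F : ℂ → ℂ) (h t : ℝ) : Prop :=
  StrictMonoOn (fun σ : ℝ => ‖F (σ + t * Complex.I)‖) (Set.Ici (((i : ℝ) + 1) / 2 + h))

theorem key {i n : ℕ} (π : Fin (n + 1) → Part i) :
    ∃ (Λ : ℂ → ℂ) (v : ℂ), v ≠ 0 ∧ IsCompleted π Λ ∧ (∀ Λ' : ℂ → ℂ, IsCompleted π Λ' → Λ' = Λ) ∧
      (∃ W : ℂ, ‖W‖ = 1 ∧ ∀ s : ℂ, Λ (i + 1 - s) = W * (starRingEnd ℂ) (Λ ((starRingEnd ℂ) s))) ∧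
      Pool.Agent.R838.TW.PL ((n + 1 : ℕ) : ℝ) (fun z => v * Λ (((((i : ℝ) + 1) / 2 : ℝ) : ℂ) + z)) := by
  have hone : ∀ j : Fin (n + 1), ∃ (X : ℂ → ℂ) (v : ℂ), Pool.Agent.R838.TW.PL 1 X ∧ v ≠ 0 ∧
      ∀ s : ℂ, (i : ℝ) / 2 + 1 < s.re → ∃ L : ℂ,
      HasProd (fun p : Nat.Primes =>
        (1 - a (π j).f p * ((p : ℕ) : ℂ) ^ (((π j).r : ℂ) - s) +
          (π j).ψ ((p : ℕ) : ZMod (π j).M) * ((p : ℕ) : ℂ) ^ ((i : ℂ) - 2 * s))⁻¹) L ∧
      X (s - ((((i : ℝ) + 1) / 2 : ℝ) : ℂ)) =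
        v * (((Real.sqrt (π j).M / (2 * Real.pi) : ℝ) : ℂ) ^ s * Complex.Gamma (s - (π j).r) * L) := by
    intro j
    haveI : NeZero (π j).M := ⟨Nat.one_le_iff_ne_zero.1 (π j).M_pos⟩
    have hf := (π j).newform
    obtain ⟨η, hη, hfr⟩ := hf.fricke
    have hf' : W388.IsNewfC (π j).M (π j).k (π j).ψ (π j).f η :=
      ⟨hf.neb, hf.one, hf.mul, hf.pow, hf.conj, hη, hfr⟩
    exact Pool.Agent.R838.NB.pl_new (π j).k_pos hf' (π j).weight
  obtain ⟨X, v, h1, h2, h3⟩ := Pool.Agent.R838.TW.pl_parts (σ := (i : ℝ) / 2 + 1)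
    (a := ((((i : ℝ) + 1) / 2 : ℝ) : ℂ))
    (fun j p s => 1 - a (π j).f p * ((p : ℕ) : ℂ) ^ (((π j).r : ℂ) - s) +
      (π j).ψ ((p : ℕ) : ZMod (π j).M) * ((p : ℕ) : ℂ) ^ ((i : ℂ) - 2 * s))
    (fun j s => ((Real.sqrt (π j).M / (2 * Real.pi) : ℝ) : ℂ) ^ s * Complex.Gamma (s - (π j).r)) hone
  rw [Fintype.card_fin] at h1
  obtain ⟨Λ, k1, k2, k3, k4, k5⟩ := Pool.Agent.R838.TW.lam_parts h1 h2 (P := fun p s => P π p s) (gm := gam π)
    (a := ((i : ℝ) + 1) / 2) h3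
  refine ⟨Λ, v, h2, ⟨k1, k2⟩, fun Λ' h' => k3 Λ' h'.1 h'.2, ?_, k5⟩
  obtain ⟨W, hW, k6⟩ := k4
  refine ⟨W, hW, fun s => ?_⟩
  have k7 := k6 s
  rw [show (2 : ℂ) * ((((i : ℝ) + 1) / 2 : ℝ) : ℂ) = i + 1 by push_cast; ring] at k7
  exact k7

/-- **Main theorem.** Let `Λ` be the completed Hasse-Weil L-function with the parts `π_0, …, π_n`. It exists, is
unique and satisfies the functional equation.

(1) For every `c < 1` there is `C` such that for `T ≥ 2`: the number of zeros of `Λ` with imaginary part in `(0, T]` and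
distance at least `δ ≥ 0` from the line `Re s = (i + 1)/2` is at most `C T^(1 - c δ) log T`; and the measure of the
heights `t` in `[0, T]` for which `|Λ(σ + i t)|` is not strictly increasing on `σ ≥ (i + 1)/2 + r / log T`, `r ≥ 0`, is
at most `C e^(-c r) T`. (2) All zeros of `Λ` are on the line if and only if `|Λ(σ + i t)|` is strictly increasing on
`σ ≥ (i + 1)/2` for all `t`. -/
theorem result {i n : ℕ} (π : Fin (n + 1) → Part i) :
    ∃ Λ : ℂ → ℂ, IsCompleted π Λ ∧ (∀ Λ' : ℂ → ℂ, IsCompleted π Λ' → Λ' = Λ) ∧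
      (∃ W : ℂ, ‖W‖ = 1 ∧ ∀ s : ℂ, Λ (i + 1 - s) = W * (starRingEnd ℂ) (Λ ((starRingEnd ℂ) s))) ∧
      (∀ c : ℝ, c < 1 → ∃ C : ℝ, 0 < C ∧
        (∀ δ T : ℝ, 0 ≤ δ → 2 ≤ T →
          (Off i Λ δ T).Finite ∧ (num Λ (Off i Λ δ T) : ℝ) ≤ C * T ^ (1 - c * δ) * Real.log T) ∧
        (∀ r T : ℝ, 0 ≤ r → 2 ≤ T →
          MeasureTheory.volume {t : ℝ | 0 ≤ t ∧ t ≤ T ∧ ¬ Grows i Λ (r / Real.log T) t} ≤
            ENNReal.ofReal (C * Real.exp (-(c * r)) * T))) ∧
      ((∀ s : ℂ, Λ s = 0 → s.re = ((i : ℝ) + 1) / 2) ↔ ∀ t : ℝ, Grows i Λ 0 t) := by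
  obtain ⟨Λ, v, hv, h1, h2, h3, h4⟩ := key π
  have hκ : (1 : ℝ) / 2 ≤ ((n + 1 : ℕ) : ℝ) := by
    push_cast
    have : (0 : ℝ) ≤ n := Nat.cast_nonneg n
    linarith
  refine ⟨Λ, h1, h2, h3, fun c hc => ?_, ?_⟩
  · obtain ⟨C1, hC1, l1⟩ := Pool.Agent.R838.TW.PL.off h4 hv h1.1 hc
    obtain ⟨C2, hC2, l2⟩ := Pool.Agent.R838.TW.PL.growth hκ h4 hv hc
    refine ⟨max C1 C2, lt_max_of_lt_left hC1, fun δ T hδ hT => ?_, fun r T hr hT => ?_⟩
    · obtain ⟨h3, h4⟩ := l1 δ T hδ hT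
      refine ⟨h3, h4.trans ?_⟩
      have hl : 0 ≤ Real.log T := Real.log_nonneg (by linarith)
      have hp : 0 ≤ T ^ (1 - c * δ) := Real.rpow_nonneg (by linarith) _
      exact mul_le_mul_of_nonneg_right (mul_le_mul_of_nonneg_right (le_max_left _ _) hp) hl
    · refine (l2 r T hr hT).trans (ENNReal.ofReal_le_ofReal ?_)
      have hT0 : (0 : ℝ) ≤ T := by linarith
      exact mul_le_mul_of_nonneg_right
        (mul_le_mul_of_nonneg_right (le_max_right _ _) (Real.exp_pos _).le) hT0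
  · have l3 := Pool.Agent.R838.TW.PL.crit hκ h4 hv
    unfold Grows
    simp only [add_zero]
    exact l3

end Pool.Agent.Results.MP_7193be_nt.ZeroDensity
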